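import Pool.Agent.Lib.MP_688fd0_co.SQ4.Iface
import Pool.Agent.Lib.MP_688fd0_co.SQ2.H80.Kap

/-!
Row KAPC (helper2): the conditions on the voltages at the primes of `C₁ = N ⊓ N₁`.

`n : G → ZMod p` is a crossed homomorphism for `χ : G → ZMod p`; `K = {n = 0, χ = 1}` is a normal subgroup and `H`, the
elements which commute with `w = a b⁻¹` in the affine group, is a subgroup. If the condition fails then either `n` is a
multiple of `χ - 1`, or all rotations are in `K` and `ker eps ≤ H`, so that `N₁ ≤ K`; both contradict `n z = 1`.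
-/

set_option autoImplicit false

namespace Pool.Agent.Lib.MP_688fd0_co.SQ4

open Pool.Agent.Lib.MP_688fd0_co.OSF Pool.Agent.Lib.MP_688fd0_co.SQ2 Pool.Agent.Lib.MP_688fd0_co.SQ3
open Pool.Agent.Lib.MP_688fd0_co.SQ2.KapP (crossed)

namespace KapP

/-- The affine part of the argument. -/
theorem core {G : Type} [Group G] {F : Type} [Field F] (n χ : G → F) (nmul : ∀ g h, n (g * h) = n g + χ g * n h)
    (χmul : ∀ g h, χ (g * h) = χ g * χ h) (χ1 : χ 1 = 1) (eps : G →* ℤˣ) (A : Set G) (hsym : ∀ x ∈ A, x⁻¹ ∈ A)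
    (hgen : Subgroup.closure A = ⊤) (a b : G) (hea : eps a = -1)
    (hrot : ∀ t ∈ A, eps t = 1 → n t = 0 ∧ χ t = 1)
    (hkap : ∀ s ∈ A, eps s = -1 →
      (χ (a * b⁻¹) - 1) * n (s * a⁻¹) - (χ (s * a⁻¹) - 1) * n (a * b⁻¹) = 0) :
    ∀ x ∈ nOne eps A a b, n x = 0 := by
  have n1 : n 1 = 0 := by
    have := nmul 1 1
    rw [mul_one, χ1, one_mul] at this
    exact left_eq_add.1 this
  have χinv : ∀ g, χ g * χ g⁻¹ = 1 := fun g => by rw [← χmul, mul_inv_cancel, χ1]
  have χ0 : ∀ g, χ g ≠ 0 := fun g h => by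
    have := χinv g
    rw [h, zero_mul] at this
    exact zero_ne_one this
  have ninv : ∀ g, n g + χ g * n g⁻¹ = 0 := fun g => by rw [← nmul, mul_inv_cancel, n1]
  unfold nOne
  generalize a * b⁻¹ = w at hkap ⊢
  let K : Subgroup G :=
    { carrier := {g | n g = 0 ∧ χ g = 1}
      mul_mem' := by
        rintro x y ⟨h1, h2⟩ ⟨h3, h4⟩
        refine ⟨?_, ?_⟩
        · rw [nmul, h1, h3, mul_zero, add_zero]
        · rw [χmul, h2, h4, mul_one]
      one_mem' := ⟨n1, χ1⟩
      inv_mem' := by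
        rintro x ⟨h1, h2⟩
        have e1 := ninv x
        have e2 := χinv x
        rw [h2, one_mul] at e2
        rw [h1, h2, one_mul, zero_add] at e1
        exact ⟨e1, e2⟩ }
  have hKn : K.Normal := by
    refine ⟨?_⟩
    rintro x ⟨h1, h2⟩ g
    refine ⟨?_, ?_⟩
    · rw [nmul, nmul, χmul, h1, h2, mul_zero, add_zero, mul_one]
      exact ninv g
    · rw [χmul, χmul, h2, mul_one]
      exact χinv g
  -- the elements which commute with `w` in the affine group
  let H : Subgroup G :=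
    { carrier := {g | (χ w - 1) * n g - (χ g - 1) * n w = 0}
      mul_mem' := by
        intro x y hx hy
        simp only [Set.mem_ofPred_eq] at hx hy ⊢
        rw [nmul, χmul]
        linear_combination hx + χ x * hy
      one_mem' := by
        simp only [Set.mem_ofPred_eq]
        rw [n1, χ1]; ring
      inv_mem' := by
        intro x hx
        simp only [Set.mem_ofPred_eq] at hx ⊢
        have e1 := ninv x
        have e2 := χinv x
        have e3 : χ x * ((χ w - 1) * n x⁻¹ - (χ x⁻¹ - 1) * n w) = 0 := by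
          linear_combination (χ w - 1) * e1 - n w * e2 - hx
        rcases mul_eq_zero.1 e3 with h | h
        · exact absurd h (χ0 x)
        · exact h }
  have hKH : K ≤ H := by
    rintro x ⟨h1, h2⟩
    show (χ w - 1) * n x - (χ x - 1) * n w = 0
    rw [h1, h2]; ring
  have hrefl : ∀ s ∈ A, eps s = -1 → s * a⁻¹ ∈ H := fun s hs hes => hkap s hs hes
  -- the induction
  have hall : ∀ g, (eps g = 1 ∧ g ∈ H ∧ a * g * a⁻¹ ∈ H) ∨ (eps g = -1 ∧ g * a⁻¹ ∈ H ∧ a * g ∈ H) := by
    intro g
    have hg : g ∈ Subgroup.closure A := by rw [hgen]; trivial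
    refine Subgroup.closure_induction
      (p := fun g _ => (eps g = 1 ∧ g ∈ H ∧ a * g * a⁻¹ ∈ H) ∨ (eps g = -1 ∧ g * a⁻¹ ∈ H ∧ a * g ∈ H))
      ?_ ?_ ?_ ?_ hg
    · intro t ht
      rcases Int.units_eq_one_or (eps t) with h | h
      · have htK : t ∈ K := hrot t ht h
        exact Or.inl ⟨h, hKH htK, hKH (hKn.conj_mem t htK a)⟩
      · refine Or.inr ⟨h, hrefl t ht h, ?_⟩
        have h2 : t⁻¹ * a⁻¹ ∈ H := hrefl _ (hsym t ht) (by rw [map_inv, h]; rfl)
        have h3 := H.inv_mem h2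
        rwa [mul_inv_rev, inv_inv, inv_inv] at h3
    · refine Or.inl ⟨map_one _, H.one_mem, ?_⟩
      rw [mul_one, mul_inv_cancel]
      exact H.one_mem
    · rintro x y _ _ (⟨ex, hx1, hx2⟩ | ⟨ex, hx1, hx2⟩) (⟨ey, hy1, hy2⟩ | ⟨ey, hy1, hy2⟩)
      · refine Or.inl ⟨by rw [map_mul, ex, ey, mul_one], H.mul_mem hx1 hy1, ?_⟩
        have := H.mul_mem hx2 hy2
        rwa [show a * x * a⁻¹ * (a * y * a⁻¹) = a * (x * y) * a⁻¹ by group] at this
      · refine Or.inr ⟨by rw [map_mul, ex, ey, one_mul], ?_, ?_⟩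
        · have := H.mul_mem hx1 hy1
          rwa [← mul_assoc] at this
        · have := H.mul_mem hx2 hy2
          rwa [show a * x * a⁻¹ * (a * y) = a * (x * y) by group] at this
      · refine Or.inr ⟨by rw [map_mul, ex, ey, mul_one], ?_, ?_⟩
        · have := H.mul_mem hx1 hy2
          rwa [show x * a⁻¹ * (a * y * a⁻¹) = x * y * a⁻¹ by group] at this
        · have := H.mul_mem hx2 hy1
          rwa [mul_assoc] at this
      · refine Or.inl ⟨by rw [map_mul, ex, ey]; rfl, ?_, ?_⟩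
        · have := H.mul_mem hx1 hy2
          rwa [show x * a⁻¹ * (a * y) = x * y by group] at this
        · have := H.mul_mem hx2 hy1
          rwa [show a * x * (y * a⁻¹) = a * (x * y) * a⁻¹ by group] at this
    · rintro x _ (⟨ex, hx1, hx2⟩ | ⟨ex, hx1, hx2⟩)
      · refine Or.inl ⟨by rw [map_inv, ex, inv_one], H.inv_mem hx1, ?_⟩
        have := H.inv_mem hx2
        rwa [show (a * x * a⁻¹)⁻¹ = a * x⁻¹ * a⁻¹ by group] at this
      · refine Or.inr ⟨by rw [map_inv, ex]; rfl, ?_, ?_⟩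
        · have := H.inv_mem hx2
          rwa [mul_inv_rev] at this
        · have := H.inv_mem hx1
          rwa [mul_inv_rev, inv_inv] at this
  have hkerH : ∀ g, eps g = 1 → g ∈ H := by
    intro g hg
    rcases hall g with h | h
    · exact h.2.1
    · rw [hg] at h
      exact absurd h.1 (by decide)
  have hle : Subgroup.normalClosure ({t | t ∈ A ∧ eps t = 1} ∪ {x | ∃ g, eps g = 1 ∧ x = g * w * g⁻¹ * w⁻¹}) ≤ K := by
    have := hKn
    refine Subgroup.normalClosure_le_normal ?_
    rintro x (⟨hxA, hx1⟩ | ⟨g, hg, rfl⟩)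
    · exact hrot x hxA hx1
    · have hH : (χ w - 1) * n g - (χ g - 1) * n w = 0 := hkerH g hg
      have hwc : g * w = g * w * g⁻¹ * w⁻¹ * (w * g) := by group
      have hχ : χ (g * w * g⁻¹ * w⁻¹) = 1 := by
        have e1 : χ (g * w) = χ (g * w * g⁻¹ * w⁻¹) * χ (w * g) := by rw [← χmul, ← hwc]
        have e2 : χ (g * w) = χ (w * g) := by rw [χmul, χmul, mul_comm]
        rw [e2] at e1
        have h0 := χ0 (w * g)
        have e3 : χ (g * w * g⁻¹ * w⁻¹) * χ (w * g) = 1 * χ (w * g) := by rw [one_mul, ← e1]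
        exact mul_right_cancel₀ h0 e3
      refine ⟨?_, hχ⟩
      have e1 : n (g * w) = n (g * w * g⁻¹ * w⁻¹) + n (w * g) := by
        conv_lhs => rw [hwc]
        rw [nmul, hχ, one_mul]
      rw [nmul g w, nmul w g] at e1
      show n (g * w * g⁻¹ * w⁻¹) = 0
      linear_combination -hH - e1
  intro x hx
  exact (hle hx).1

end KapP

theorem kapC : KapCS := by
  intro G _ _ N C eps k P hGN A hsym hgen C₁ _ h1 a b hC hea heb s z chi ν hs hz ho hconj hν eps' heps' V hVχ hVn p hp
  have : NeZero (Nat.card C₁) := ⟨Nat.card_pos.ne'⟩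
  have hpp : p.Prime := Nat.prime_of_mem_primeFactors hp
  have : Fact p.Prime := ⟨hpp⟩
  set f : ZMod (Nat.card C₁) →+* ZMod p := red (Nat.dvd_of_mem_primeFactors hp) with hf
  have hcr := crossed C₁ s z chi ν ho hconj hν
  let n : G → ZMod p := fun g => f (ν g)
  let χ : G → ZMod p := fun g => f (chi (QuotientGroup.mk' C₁ g))
  have nmul : ∀ g h, n (g * h) = n g + χ g * n h := fun g h => by
    show f _ = _
    rw [hcr, map_add, map_mul]
  have χmul : ∀ g h, χ (g * h) = χ g * χ h := fun g h => by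
    show f _ = _
    rw [map_mul, map_mul, map_mul]
  have χ1 : χ 1 = 1 := by
    show f _ = _
    rw [map_one, map_one, map_one]
  have n1 : n 1 = 0 := by
    have := nmul 1 1
    rw [mul_one, χ1, one_mul] at this
    exact left_eq_add.1 this
  have χinv : ∀ g, χ g * χ g⁻¹ = 1 := fun g => by rw [← χmul, mul_inv_cancel, χ1]
  have ninv : ∀ g, n g + χ g * n g⁻¹ = 0 := fun g => by rw [← nmul, mul_inv_cancel, n1]
  have hzC : z ∈ C₁ := by rw [← hz]; exact Subgroup.mem_zpowers z
  have hmz : QuotientGroup.mk' C₁ z = 1 := by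
    rw [QuotientGroup.mk'_apply, QuotientGroup.eq_one_iff]; exact hzC
  have χz : χ z = 1 := by
    show f (chi (QuotientGroup.mk' C₁ z)) = 1
    rw [hmz, map_one, map_one]
  have nz : n z = 1 := by
    have e := hν z
    rw [hmz, map_one, mul_one] at e
    have e1 : z ^ 1 = z ^ (ν z).val := by rw [pow_one]; exact e
    rw [pow_inj_mod, ho] at e1
    have e2 : ((1 : ℕ) : ZMod (Nat.card C₁)) = (((ν z).val : ℕ) : ZMod (Nat.card C₁)) :=
      (ZMod.natCast_eq_natCast_iff' _ _ _).2 e1
    rw [ZMod.natCast_zmod_val, Nat.cast_one] at e2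
    show f (ν z) = 1
    rw [← e2, map_one]
  -- the labels
  have hVχ' : ∀ q, (V.map f).chi q = f (chi q) := fun q => by
    show f (V.chi q) = _
    rw [hVχ]
  have hVn' : ∀ g, (V.map f).n g = n g.1 := fun g => by
    show f (V.n g) = f (ν g.1)
    rw [hVn]
  have hq : ∀ g : (qLb C₁ A hsym h1).L, (V.map f).chi ((qLb C₁ A hsym h1).q g) = χ g.1 := fun g => hVχ' _
  have hq' : ∀ g g' : (qLb C₁ A hsym h1).L,
      (V.map f).chi ((qLb C₁ A hsym h1).q g * ((qLb C₁ A hsym h1).q g')⁻¹) = χ (g.1 * g'.1⁻¹) := fun g g' => by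
    rw [hVχ']
    show _ = f (chi (QuotientGroup.mk' C₁ (g.1 * g'.1⁻¹)))
    rw [map_mul (QuotientGroup.mk' C₁), map_inv (QuotientGroup.mk' C₁)]
    rfl
  have heq : ∀ g : (qLb C₁ A hsym h1).L, eps' ((qLb C₁ A hsym h1).q g) = eps g.1 := fun g => heps' g.1
  by_contra hcon
  unfold KapV at hcon
  push Not at hcon
  obtain ⟨hc1, hc2, hc3⟩ := hcon
  by_cases hex : ∃ t : (qLb C₁ A hsym h1).L, eps' ((qLb C₁ A hsym h1).q t) = 1 ∧
      (V.map f).chi ((qLb C₁ A hsym h1).q t) ≠ 1
  · -- a rotation with `chi ≠ 1`: `n` is a multiple of `chi - 1`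
    have hall := hc1 hex
    obtain ⟨t, -, htχ⟩ := hex
    rw [hq] at htχ
    have hk : ∀ g, (χ t.1 - 1) * n g - (χ g - 1) * n t.1 = 0 := by
      intro g
      have hg : g ∈ Subgroup.closure A := by rw [hgen]; trivial
      refine Subgroup.closure_induction
        (p := fun g _ => (χ t.1 - 1) * n g - (χ g - 1) * n t.1 = 0) ?_ ?_ ?_ ?_ hg
      · intro u hu
        by_cases hu1 : u = 1
        · rw [hu1, n1, χ1]; ring
        · have e := hall t ⟨u, hu, hu1⟩
          unfold Vd.kap at e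
          rw [hq, hq, hVn', hVn'] at e
          exact e
      · rw [n1, χ1]; ring
      · intro x y _ _ hx hy
        rw [nmul, χmul]
        linear_combination hx + χ x * hy
      · intro x _ hx
        have e1 := ninv x
        have e2 := χinv x
        have e3 : χ x * ((χ t.1 - 1) * n x⁻¹ - (χ x⁻¹ - 1) * n t.1) = 0 := by
          linear_combination (χ t.1 - 1) * e1 - n t.1 * e2 - hx
        rcases mul_eq_zero.1 e3 with h | h
        · rw [h, zero_mul] at e2
          exact absurd e2 zero_ne_one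
        · exact h
    have χa : χ t.1 = 1 := by
      have := hk z
      rw [nz, χz] at this
      linear_combination this
    exact htχ χa
  · push Not at hex
    have hrot : ∀ t ∈ A, eps t = 1 → n t = 0 ∧ χ t = 1 := by
      intro t ht het
      by_cases ht1 : t = 1
      · rw [ht1]; exact ⟨n1, χ1⟩
      · have e0 : eps' ((qLb C₁ A hsym h1).q ⟨t, ht, ht1⟩) = 1 := by rw [heq]; exact het
        have e1 := hex ⟨t, ht, ht1⟩ e0
        have e2 := hc2 ⟨t, ht, ht1⟩ e0 e1
        rw [hq] at e1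
        rw [hVn'] at e2
        exact ⟨e2, e1⟩
    have hkap : ∀ u ∈ A, eps u = -1 →
        (χ (a.1 * b.1⁻¹) - 1) * n (u * a.1⁻¹) - (χ (u * a.1⁻¹) - 1) * n (a.1 * b.1⁻¹) = 0 := by
      intro u hu heu
      have hu1 : u ≠ 1 := by
        rintro rfl
        rw [map_one] at heu
        exact absurd heu (by decide)
      have e := hc3 ⟨u, hu, hu1⟩ (by rw [heq]; exact heu)
      unfold kapW at e
      rw [hq', hq', hVn', hVn', hVn'] at e
      have e1 : n (u * a.1⁻¹) = n u - χ (u * a.1⁻¹) * n a.1 := by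
        have := ninv a.1
        have h2 := χinv a.1
        rw [nmul, χmul]
        have h3 : n a.1⁻¹ = -(χ a.1⁻¹ * n a.1) := by
          have h4 : χ a.1⁻¹ * (n a.1 + χ a.1 * n a.1⁻¹) = 0 := by rw [this, mul_zero]
          have h5 : χ a.1⁻¹ * n a.1 + (χ a.1 * χ a.1⁻¹) * n a.1⁻¹ = 0 := by linear_combination h4
          rw [h2, one_mul] at h5
          linear_combination h5
        rw [h3]; ring
      have e2 : n (a.1 * b.1⁻¹) = n a.1 - χ (a.1 * b.1⁻¹) * n b.1 := by
        have := ninv b.1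
        have h2 := χinv b.1
        rw [nmul, χmul]
        have h3 : n b.1⁻¹ = -(χ b.1⁻¹ * n b.1) := by
          have h4 : χ b.1⁻¹ * (n b.1 + χ b.1 * n b.1⁻¹) = 0 := by rw [this, mul_zero]
          have h5 : χ b.1⁻¹ * n b.1 + (χ b.1 * χ b.1⁻¹) * n b.1⁻¹ = 0 := by linear_combination h4
          rw [h2, one_mul] at h5
          linear_combination h5
        rw [h3]; ring
      rw [e1, e2]
      exact e
    have hz0 : n z = 0 := by
      refine KapP.core n χ nmul χmul χ1 eps A hsym hgen a.1 b.1 hea hrot hkap z ?_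
      have : z ∈ cOne N eps A a.1 b.1 := by rw [← hC]; exact hzC
      exact this.2
    rw [nz] at hz0
    exact one_ne_zero hz0

end Pool.Agent.Lib.MP_688fd0_co.SQ4
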