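import Pool.Agent.Lib.MP_688fd0_co.SQ4.H98.IfaceF

/-!
Type C1, row POS (helper2): the positions.
-/

set_option autoImplicit false

namespace Pool.Agent.Lib.MP_688fd0_co.SQ4.CV

open Pool.Agent.Lib.MP_688fd0_co.OSF Pool.Agent.Lib.MP_688fd0_co.SQ2 Pool.Agent.Lib.MP_688fd0_co.SQ3
open Pool.Agent.Lib.MP_688fd0_co.SQ4

namespace Pos2

variable {Q : Type} [Group Q] {B : Lb.{0, 0} Q} {a b : B.L} {eps : Q →* ℤˣ} {D : Subgroup Q} {z : Q} {k : ℕ}

open Classical in
/-- The letter of a pair. -/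
noncomputable def lt (b : B.L) (p : B.L × B.L) : ℕ × B.L := if p.2 = b then (0, p.1) else (1, B.inv p.2)

theorem eps_neg {x : ℤˣ} (h : x ≠ 1) : x = -1 := (Int.units_eq_one_or x).resolve_left h

/-- Plain words from even levels. -/
theorem str_even (H : HypC B a b eps D z k) (j : ℕ) : ∀ x : Q, eps x = 1 →
    H.up.str (2 * j) x = flat (List.replicate j (a, b)) := by
  induction j with
  | zero => exact fun x _ => rfl
  | succ j ih =>
    intro x hx
    have h1 : H.up.up x = a := by rw [H31.C_up H, if_pos hx]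
    have h2 : eps (H.up.U x) = -1 := by rw [H.up.hU, map_mul, hx, h1, H.ea, one_mul]
    have h3 : H.up.up (H.up.U x) = B.inv b := by
      rw [H31.C_up H, if_neg (by rw [h2]; decide)]
    have h4 : eps (H.up.U (H.up.U x)) = 1 := by
      rw [H.up.hU (H.up.U x), map_mul, h2, h3, B.q_inv, map_inv, H.eb]
      decide
    rw [show 2 * (j + 1) = 2 * j + 1 + 1 by ring, H.up.str_succ, H.up.str_succ, h1, h3, ih _ h4]
    rfl

/-- The word of the letter of a pair. -/
theorem LX_lt (H : HypC B a b eps D z k) {p : B.L × B.L} (hp : Nr1 B a b D p) :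
    LX H.up k (lt b p) True = flat (p :: List.replicate (k - 1) (a, b)) := by
  classical
  have hk := H.kpos
  have h1 : H.up.up 1 = a := by rw [H31.C_up H, if_pos (map_one eps)]
  have h2 : eps (H.up.U 1) = -1 := by rw [H.up.hU, map_mul, map_one, h1, H.ea, one_mul]
  have h3 : H.up.up (H.up.U 1) = B.inv b := by
    rw [H31.C_up H, if_neg (by rw [h2]; decide)]
  have h4 : eps (H.up.U (H.up.U 1)) = 1 := by
    rw [H.up.hU (H.up.U 1), map_mul, h2, h3, B.q_inv, map_inv, H.eb]
    decide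
  unfold LX lt
  rw [if_pos trivial]
  by_cases hb : p.2 = b
  · rw [if_pos hb]
    have e1 : 2 * k - 1 - 0 = 2 * (k - 1) + 1 := by omega
    show H.up.str 0 1 ++ p.1 :: H.up.str (2 * k - 1 - 0) (H.up.U ((H.up.U ^ 0) 1)) = _
    rw [e1, H.up.str_succ]
    show p.1 :: (H.up.up (H.up.U 1) :: H.up.str (2 * (k - 1)) (H.up.U (H.up.U 1))) = _
    rw [h3, str_even H _ _ h4]
    show _ = p.1 :: B.inv p.2 :: flat (List.replicate (k - 1) (a, b))
    rw [hb]
  · rw [if_neg hb]
    have ha : p.1 = a := hp.2.resolve_right hb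
    have e1 : 2 * k - 1 - 1 = 2 * (k - 1) := by omega
    show H.up.str 1 1 ++ B.inv p.2 :: H.up.str (2 * k - 1 - 1) (H.up.U ((H.up.U ^ 1) 1)) = _
    rw [e1, pow_one, H.up.str_succ, h1, str_even H _ _ h4]
    show a :: B.inv p.2 :: flat (List.replicate (k - 1) (a, b)) = p.1 :: B.inv p.2 :: _
    rw [ha]

/-- The letter of a pair is admissible. -/
theorem lt_ok (H : HypC B a b eps D z k) {p : B.L × B.L} (hp : Nr1 B a b D p) :
    (lt b p).1 < 2 * k ∧ VL B a b D (lt b p).1 (lt b p).2 := by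
  classical
  have hk := H.kpos
  unfold lt
  by_cases hb : p.2 = b
  · rw [if_pos hb]
    refine ⟨by show 0 < 2 * k; omega, ?_⟩
    show VL B a b D 0 p.1
    unfold VL
    rw [if_pos rfl]
    exact hp.1.1
  · rw [if_neg hb]
    refine ⟨by show 1 < 2 * k; omega, ?_⟩
    show VL B a b D 1 (B.inv p.2)
    unfold VL
    rw [if_neg (by norm_num), inv_inv, B.q_inv]
    have e1 : B.q b * (B.q p.2)⁻¹ = B.q b * ((B.q b)⁻¹ * B.q p.2)⁻¹ * (B.q b)⁻¹ := by group
    rw [e1]
    exact mem_conj H (D.inv_mem hp.1.2) _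

theorem mL_app (α β : Q) (L L' : List (ℕ × B.L)) : mL α β (L ++ L') = mL α β L * mL α β L' := by
  unfold mL
  rw [List.map_append, List.prod_append]

theorem mL_one (α β : Q) (v : ℕ × B.L) : mL α β [v] = mvC α β v.1 (B.q v.2) := by
  unfold mL
  rw [List.map_singleton, List.prod_singleton]

end Pos2

open Pos2 in
theorem pos : PosS := by
  classical
  intro Q _ _ B a b eps D z k H
  have hk := H.kpos
  have hfQ := H.fin
  have hfL := H.finL
  -- lists for the elements of `mZ`
  have hL : ∀ m : mZ B a b D z k, ∃ L : List (ℕ × B.L), VLs B a b D k L ∧ L.length ≤ 2 * (k * (k + 1)) ∧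
      mL (B.q a) (B.q b) L = m ∧ (m = 1 → L = []) := by
    intro m
    by_cases hm : m = 1
    · exact ⟨[], fun _ h => absurd h List.not_mem_nil, Nat.zero_le _, by rw [hm]; rfl, fun _ => rfl⟩
    · obtain ⟨L, h1, h2, h3⟩ := exists_mL H m.2
      exact ⟨L, h1, h2.le, h3, fun h => absurd h hm⟩
  choose L hL1 hL2 hL3 hL4 using hL
  -- the move of the first letter
  let mv : Option {p // Nr1 B a b D p} → mZ B a b D z k := fun o =>
    match o with
    | none => 1
    | some p => ⟨mvC (B.q a) (B.q b) (lt b p.1).1 (B.q (lt b p.1).2), mvC_mZ H (lt_ok H p.2).2⟩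
  let l0 : Option {p // Nr1 B a b D p} → List (ℕ × B.L) := fun o =>
    match o with
    | none => []
    | some p => [lt b p.1]
  have h0 : ∀ o, mL (B.q a) (B.q b) (l0 o) = mv o := by
    rintro (_ | p)
    · rfl
    · exact mL_one _ _ _
  have h0l : ∀ o, (l0 o).length ≤ 1 := by
    rintro (_ | p)
    · exact Nat.zero_le _
    · exact le_rfl
  have h0v : ∀ o, VLs B a b D k (l0 o) := by
    rintro (_ | p) v hv
    · exact absurd hv List.not_mem_nil
    · have hv' : v ∈ [lt b p.1] := hv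
      rw [List.mem_singleton] at hv'
      rw [hv']
      exact lt_ok H p.2
  let ps : Option {p // Nr1 B a b D p} × mZ B a b D z k → List (ℕ × B.L) := fun c => l0 c.1 ++ L ((mv c.1)⁻¹ * c.2)
  have hps : ∀ c, mL (B.q a) (B.q b) (ps c) = c.2 := by
    intro c
    show mL (B.q a) (B.q b) (l0 c.1 ++ L ((mv c.1)⁻¹ * c.2)) = c.2
    rw [mL_app, h0, hL3, Subgroup.coe_mul, Subgroup.coe_inv, mul_inv_cancel_left]
  have fN : Finite {p // Nr1 B a b D p} := inferInstance
  have fP : Finite (Option {p // Nr1 B a b D p} × mZ B a b D z k) := inferInstance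
  letI iF : Fintype (Option {p // Nr1 B a b D p} × mZ B a b D z k) := Fintype.ofFinite _
  refine ⟨Option {p // Nr1 B a b D p} × mZ B a b D z k, iF, ps, ⟨?_, ?_, ?_, ?_, ?_, ?_⟩⟩
  · rw [Fintype.card_eq_nat_card, Nat.card_prod, Finite.card_option]
    refine Nat.mul_le_mul ?_ ?_
    · have h1 : Nat.card {p // Nr1 B a b D p} ≤ Nat.card (B.L × B.L) :=
        Nat.card_le_card_of_injective _ Subtype.val_injective
      rw [Nat.card_prod, ← sq] at h1
      omega
    · have h1 : Nat.card (mZ B a b D z k) ≤ Nat.card D :=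
        Nat.card_le_card_of_injective _ (Subgroup.inclusion_injective (mZ_le H))
      exact h1.trans (Nat.le_of_dvd hk H.card)
  · intro c v hv
    rcases List.mem_append.1 hv with h | h
    · exact h0v _ v h
    · exact hL1 _ v h
  · intro c
    show (l0 c.1 ++ L ((mv c.1)⁻¹ * c.2)).length ≤ _
    rw [List.length_append]
    have h1 := h0l c.1
    have h2 := hL2 ((mv c.1)⁻¹ * c.2)
    omega
  · refine ⟨(none, 1), ?_⟩
    show [] ++ L ((1 : mZ B a b D z k)⁻¹ * 1) = []
    rw [hL4 _ (by rw [inv_one, one_mul])]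
    rfl
  · intro p hp
    refine ⟨(some ⟨p, hp⟩, mv (some ⟨p, hp⟩)), fun w => ?_⟩
    have h1 : ps (some ⟨p, hp⟩, mv (some ⟨p, hp⟩)) = [lt b p] := by
      show [lt b p] ++ L ((mv (some ⟨p, hp⟩))⁻¹ * mv (some ⟨p, hp⟩)) = _
      rw [hL4 _ (inv_mul_cancel _)]
      rfl
    rw [h1]
    show LX H.up k (lt b p) True ++ (w ++ B.rev (LX H.up k (lt b p) True)) = _
    rw [LX_lt H hp]
  · refine ⟨Nat.card (Option {p // Nr1 B a b D p}), Nat.card_pos, fun m hm => ?_⟩
    have h1 : {c | mL (B.q a) (B.q b) (ps c) = m} =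
        Set.range (fun o : Option {p // Nr1 B a b D p} => ((o, ⟨m, hm⟩) : _ × mZ B a b D z k)) := by
      ext c
      rw [Set.mem_setOf_eq, hps]
      constructor
      · intro h
        exact ⟨c.1, Prod.ext rfl (Subtype.ext h.symm)⟩
      · rintro ⟨o, rfl⟩
        rfl
    rw [h1, ← Nat.card_coe_set_eq, Nat.card_range_of_injective fun o o' h => congrArg Prod.fst h]

end Pool.Agent.Lib.MP_688fd0_co.SQ4.CV
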